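import Pool.Agent.Lib.MP_a387ab_co.Divis
import Pool.Agent.Lib.MP_a387ab_co.Height

namespace Pool.Agent.Results.MP_a387ab_co.CoefficientHeight

open Pool.Agent.Lib.MP_a387ab_co

/-- If `AND_n` is a real combination of quadratic phases whose coefficients are integer
combinations, with coefficient matrix `C`, of `k` real numbers, then
`2 ^ ⌈n / 2⌉ ≤ (∑ |C i j|) ^ k`. -/
theorem result {n m k : ℕ} (q : Fin m → (Fin n → ZMod 2) → ZMod 2) (hq : ∀ i, IsQuad (q i))
    (C : Fin m → Fin k → ℤ) (a : Fin k → ℝ)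
    (h : ∀ x, andFn x = ∑ i, (∑ j, (C i j : ℝ) * a j) * phase (q i x)) :
    2 ^ ((n + 1) / 2) ≤ (∑ i, ∑ j, (C i j).natAbs) ^ k := by
  classical
  have key := height_bound (X := Fin n → ZMod 2) (k := k)
    (fun x j => ∑ i, C i j * zph (q i x)) a (fun _ => 1) ?_
    (∑ i, ∑ j, (C i j).natAbs) ?_ (2 ^ ((n + 1) / 2)) ?_
  · exact_mod_cast key
  · intro x
    have h1 := h x
    unfold andFn at h1
    rw [h1]
    push_cast
    simp_rw [zph_cast, Finset.mul_sum, Finset.sum_mul]
    rw [Finset.sum_comm]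
    exact Finset.sum_congr rfl fun i _ => Finset.sum_congr rfl fun j _ => by ring
  · intro x
    calc ∑ j, |∑ i, C i j * zph (q i x)| ≤ ∑ j, ∑ i, |C i j * zph (q i x)| :=
          Finset.sum_le_sum fun j _ => Finset.abs_sum_le_sum_abs _ _
      _ = ∑ i, ∑ j, |C i j| := by
          rw [Finset.sum_comm]
          refine Finset.sum_congr rfl fun i _ => Finset.sum_congr rfl fun j _ => ?_
          rw [abs_mul, abs_zph, mul_one]
      _ = ((∑ i, ∑ j, (C i j).natAbs : ℕ) : ℤ) := by
          push_cast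
          simp
      _ ≤ _ := le_refl _
  · intro j
    rw [Finset.sum_comm]
    refine Finset.dvd_sum fun i _ => ?_
    rw [← Finset.mul_sum]
    exact Dvd.dvd.mul_left (sum_dvd ((isQuad_iff_quadOn _).mp (hq i))) _

end Pool.Agent.Results.MP_a387ab_co.CoefficientHeight
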