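import Pool.Agent.Lib.MP_a387ab_co.Upper
import Pool.Agent.Lib.MP_a387ab_co.QuadNum

namespace Pool.Agent.Results.MP_a387ab_co.NearQuadraticBound

open Pool.Agent.Lib.MP_a387ab_co

/-- The least number `M(n)` of real multiples of quadratic phases summing to `AND_n` satisfies
`M(n) ≥ n ^ 2 / (128 log₂ n)` for all `n ≥ 2`. -/
theorem result (n : ℕ) (hn : 2 ≤ n) :
    (n : ℝ) ^ 2 / (128 * Real.logb 2 n) ≤ minPhases n :=
  LB.quad_real hn (Nat.sInf_mem (s := {m | Represents n m}) ⟨_, represents_upper n⟩)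

end Pool.Agent.Results.MP_a387ab_co.NearQuadraticBound
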