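import Pool.Agent.Lib.MP_a387ab_co.Sparse

namespace Pool.Agent.Results.MP_a387ab_co.SparseForms

open Pool.Agent.Lib.MP_a387ab_co

/-- Suppose `AND_n` is a real combination of the `m` phases `(-1)^(q i)`, and that for one linear
change of coordinates `A` and one function `q0` every `q i + q0`, read in the coordinates given
by `A`, is a polynomial of degree at most two with at most `s` monomials `x_i x_j`, where
`n ≤ s`. Then `m ≥ 2 ^ ⌊n ^ 2 / (1536 s)⌋`. -/
theorem result {n m s : ℕ} (hs : n ≤ s)
    (A : (Fin n → ZMod 2) ≃ₗ[ZMod 2] (Fin n → ZMod 2)) (q0 : (Fin n → ZMod 2) → ZMod 2)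
    (q : Fin m → (Fin n → ZMod 2) → ZMod 2)
    (hq : ∀ i, SparseQuad s (fun x => q i (A x) + q0 (A x))) (c : Fin m → ℝ)
    (h : ∀ x, andFn x = ∑ i, c i * phase (q i x)) :
    2 ^ (n ^ 2 / (1536 * s)) ≤ m := by
  rcases Nat.eq_zero_or_pos (n ^ 2 / (1536 * s)) with hk | hk
  · rw [hk, pow_zero]
    rcases Nat.eq_zero_or_pos m with hm | hm
    · exfalso
      subst hm
      have := h (fun _ => 1)
      simp [andFn] at this
    · exact hm
  · have hn : 0 < n := by
      rcases Nat.eq_zero_or_pos n with h0 | h0
      · subst h0; simp at hk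
      · exact h0
    have hks : 1536 * s * (n ^ 2 / (1536 * s)) ≤ n ^ 2 := Nat.mul_div_le _ _
    refine sparse_bound hn hs hk hks
      (fun i x => q i (A (x + A.symm fun _ => 1)) + q0 (A (x + A.symm fun _ => 1)))
      (A.symm fun _ => 1) (fun i => ⟨_, hq i, fun x => rfl⟩)
      (fun i => c i * phase (q0 fun _ => 1)) (fun x => ?_)
    have h1 := h (A (x + A.symm fun _ => 1))
    have h2 : A (x + A.symm fun _ => 1) = A x + fun _ => 1 := by
      rw [map_add, LinearEquiv.apply_symm_apply]
    by_cases hx : x = 0
    · subst hx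
      rw [if_pos rfl]
      rw [h2, map_zero, zero_add] at h1
      have h3 : ∑ i, c i * phase (q0 fun _ => 1)
            * phase (q i (A (0 + A.symm fun _ => 1)) + q0 (A (0 + A.symm fun _ => 1)))
          = (phase (q0 fun _ => 1) * phase (q0 fun _ => 1))
            * ∑ i, c i * phase (q i fun _ => 1) := by
        rw [Finset.mul_sum]
        refine Finset.sum_congr rfl fun i _ => ?_
        rw [zero_add, LinearEquiv.apply_symm_apply, phase_add]
        ring
      rw [h3, phase_sq, one_mul, ← h1]
      simp [andFn]
    · rw [if_neg hx]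
      have hne : A (x + A.symm fun _ => 1) ≠ fun _ => 1 := by
        intro hcon
        apply hx
        have := congrArg A.symm hcon
        rw [LinearEquiv.symm_apply_apply] at this
        exact add_eq_right.mp this
      have h4 : (0 : ℝ) = ∑ i, c i * phase (q i (A (x + A.symm fun _ => 1))) := by
        rw [← h1]; unfold andFn; rw [if_neg hne]
      have h3 : ∑ i, c i * phase (q0 fun _ => 1)
            * phase (q i (A (x + A.symm fun _ => 1)) + q0 (A (x + A.symm fun _ => 1)))
          = (phase (q0 fun _ => 1) * phase (q0 (A (x + A.symm fun _ => 1))))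
            * ∑ i, c i * phase (q i (A (x + A.symm fun _ => 1))) := by
        rw [Finset.mul_sum]
        refine Finset.sum_congr rfl fun i _ => ?_
        rw [phase_add]
        ring
      rw [h3, ← h4, mul_zero]

end Pool.Agent.Results.MP_a387ab_co.SparseForms
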