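import Pool.Agent.Lib.MP_a387ab_co.Upper

namespace Pool.Agent.Results.MP_a387ab_co.UpperBound

open Pool.Agent.Lib.MP_a387ab_co

/-- The least number `M(n)` of real multiples of quadratic phases summing to `AND_n` is attained
and satisfies `M(n) ≤ 13 ^ ⌈n / 8⌉`. -/
theorem result (n : ℕ) :
    Represents n (minPhases n) ∧ minPhases n ≤ 13 ^ ((n + 7) / 8) :=
  ⟨Nat.sInf_mem (s := {m | Represents n m}) ⟨_, represents_upper n⟩,
    Nat.sInf_le (represents_upper n)⟩

end Pool.Agent.Results.MP_a387ab_co.UpperBound
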